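import Mathlib
import Pool.Agent.H378R2.QG.Defs
import Pool.Agent.H398R2.RK.Surv2

set_option autoImplicit false
set_option maxHeartbeats 4000000

/-! # QG, task QR (helper74): survivors, with the sieve and the average as hypotheses -/

namespace Pool.Agent.H378R2.QG.QRaux

open Finset Filter

open Classical in
/-- the statement of `sieve_mixed` -/
def SieveMixed : Prop := ∃ C : ℝ, 0 < C ∧ ∀ (m N w : ℕ) (s : ℤ), (s = 1 ∨ s = -1) → 0 < m → 2 ≤ w →
    (w : ℝ) ≤ (N : ℝ) ^ (1 / 16 : ℝ) →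
    (((Finset.Icc 1 N).filter (fun q : ℕ => q.Prime ∧
      ∀ p : ℕ, p.Prime → p ≤ w → ¬ ((p : ℤ) ∣ (m : ℤ) * (q : ℤ) + s))).card : ℝ) ≤
      C * ((m : ℝ) / (Nat.totient m : ℝ)) ^ 2 * N / (Real.log N * Real.log w)

/-- the statement of `sum_ratio` -/
def SumRatio : Prop := ∃ C : ℝ, 0 < C ∧ ∀ M : ℕ, 2 ≤ M →
    ∑ m ∈ Finset.Icc 1 M, ((m : ℝ) / (Nat.totient m : ℝ)) ^ 2 / m ≤ C * Real.log M

open Classical in
/-- the count for one sign -/
theorem one_sign (hSM : SieveMixed) (hSR : SumRatio) (s : ℤ) (hs : s = 1 ∨ s = -1) :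
    ∃ C : ℝ, 0 < C ∧ ∃ y₀ : ℝ, ∀ y : ℝ, y₀ ≤ y → ∀ R : ℕ, y ≤ R →
    (R : ℝ) ≤ y * (Real.log y) ^ 2 →
    (((Finset.Icc 1 R).filter (fun k : ℕ => ∀ p : ℕ, p.Prime → (p : ℝ) ≤ y →
        ¬ ((p : ℤ) ∣ (cl y p : ℤ) ^ 2 + s * k))).card : ℝ) ≤
      C * R * (Real.log (Real.log y)) ^ 2 /
        ((Real.log y) ^ 2 * Real.log (Real.log (Real.log y))) := by
  obtain ⟨C₁, hC₁, hSM⟩ := hSM
  obtain ⟨C₂, hC₂, hSR⟩ := hSR
  obtain ⟨y₁, hsm⟩ := Pool.Agent.H398R2.RK.smooth_count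
  obtain ⟨t₀, hev⟩ := Pool.Agent.H398R2.RK.ev_surv
  refine ⟨40 * C₁ * C₂ + 1, by positivity, max y₁ (Real.exp (Real.exp t₀)), fun y hy R hyR hRy => ?_⟩
  have hsm' := hsm y ((le_max_left _ _).trans hy) R hyR
  have hy' := (le_max_right _ _).trans hy
  have hy0 : 0 < y := (Real.exp_pos _).trans_le hy'
  have hL1' : Real.exp t₀ ≤ Real.log y := by
    rw [← Real.log_exp (Real.exp t₀)]; exact Real.log_le_log (Real.exp_pos _) hy'
  have hly : 0 < Real.log y := (Real.exp_pos _).trans_le hL1'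
  set t := Real.log (Real.log y) with ht
  have htt : t₀ ≤ t := by
    rw [← Real.log_exp t₀]; exact Real.log_le_log (Real.exp_pos _) hL1'
  obtain ⟨h1, h2, h3, h4, h5, h6⟩ := hev t htt
  have hLe : Real.log y = Real.exp t := by rw [ht, Real.exp_log hly]
  have hye : y = Real.exp (Real.exp t) := by rw [← hLe, Real.exp_log hy0]
  have hw0 : w0 y = Real.exp (Real.log y * Real.log t / (10 * t)) := rfl
  set V0 := Real.log y * Real.log t / (10 * t) with hV0
  have ht0 : 0 < t := by linarith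
  have hlt0 : 0 < Real.log t := by linarith
  have hV1 : 2 * t ≤ V0 := by
    rw [hV0, le_div_iff₀ (by positivity), hLe]
    nlinarith [Real.exp_pos t]
  have hlog8 : 16 * Real.log t ≤ 10 * t := by
    have e1 : Real.log t = Real.log (t / 2) + Real.log 2 := by
      rw [Real.log_div ht0.ne' (by norm_num)]; ring
    have e2 : Real.log (t / 2) ≤ t / 2 - 1 := Real.log_le_sub_one_of_pos (by linarith)
    have e3 := Real.log_two_lt_d9
    rw [e1]; linarith
  have hV16 : V0 ≤ Real.log y / 16 := by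
    rw [hV0, div_le_div_iff₀ (by positivity) (by norm_num)]
    nlinarith
  -- the sieving level
  set w : ℕ := ⌊w0 y⌋₊ with hw
  have hwle : (w : ℝ) ≤ Real.exp V0 := by rw [hw, hw0]; exact Nat.floor_le (Real.exp_pos _).le
  have hw2 : 2 ≤ w := by
    rw [hw, hw0, Nat.le_floor_iff (Real.exp_pos _).le]
    have := Real.add_one_le_exp V0
    push_cast; linarith
  have hw0' : (0 : ℝ) < w := by exact_mod_cast (by omega : 0 < w)
  have hlw : V0 / 2 ≤ Real.log w := by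
    have h7 : Real.exp V0 < w + 1 := by rw [hw, hw0]; exact Nat.lt_floor_add_one _
    have h8 : (2 : ℝ) ≤ w := by exact_mod_cast hw2
    have h9 : Real.exp V0 ≤ (w : ℝ) ^ 2 := by nlinarith
    have h10 := Real.log_le_log (Real.exp_pos _) h9
    rw [Real.log_exp, Real.log_pow] at h10
    push_cast at h10; linarith
  have hV0pos : 0 < V0 := by linarith
  have hlw0 : 0 < Real.log w := by linarith
  have hR0 : (0 : ℝ) < R := by linarith
  -- the cofactors
  set M : ℕ := ⌊(Real.log y) ^ 2⌋₊ with hM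
  have hMle : (M : ℝ) ≤ (Real.log y) ^ 2 := Nat.floor_le (by positivity)
  have hM2 : 2 ≤ M := by
    rw [hM, Nat.le_floor_iff (by positivity), hLe]
    push_cast; nlinarith
  have hM0 : (0 : ℝ) < M := by exact_mod_cast (by omega : 0 < M)
  have hlM : Real.log M ≤ 2 * t := by
    have := Real.log_le_log hM0 hMle
    rw [Real.log_pow, ← ht] at this
    push_cast at this; exact this
  -- the classes
  have hcls : ∀ p : ℕ, (p : ℝ) ≤ w0 y → cl y p = 1 := fun p hp => by unfold cl; rw [if_pos hp]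
  have hcll : ∀ p : ℕ, ¬ (p : ℝ) ≤ w0 y → cl y p = 0 := fun p hp => by unfold cl; rw [if_neg hp]
  have hw0y : w0 y ≤ y := by
    rw [hw0]
    calc Real.exp V0 ≤ Real.exp (Real.log y) := by apply Real.exp_le_exp.2; linarith
      _ = y := Real.exp_log hy0
  -- the set for one cofactor
  set T : ℕ → Finset ℕ := fun m => (Finset.Icc 1 (R / m)).filter (fun q : ℕ => (q.Prime ∧
      ∀ p : ℕ, p.Prime → p ≤ w → ¬ ((p : ℤ) ∣ (m : ℤ) * (q : ℤ) + s)) ∧ y < q) with hT
  have hsub : (Finset.Icc 1 R).filter (fun k : ℕ => ∀ p : ℕ, p.Prime → (p : ℝ) ≤ y →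
        ¬ ((p : ℤ) ∣ (cl y p : ℤ) ^ 2 + s * k)) ⊆
      ((Finset.Icc 1 R).filter (fun m => ∀ p : ℕ, p.Prime → p ∣ m → Real.log p ≤ V0)) ∪
      (Finset.Icc 1 M).biUnion (fun m => (T m).image (fun q => m * q)) := by
    intro k hk
    rw [mem_filter, mem_Icc] at hk
    obtain ⟨⟨hk1, hkR⟩, hk2⟩ := hk
    rw [mem_union]
    by_cases hall : ∀ p : ℕ, p.Prime → p ∣ k → Real.log p ≤ V0
    · left
      rw [mem_filter, mem_Icc]
      exact ⟨⟨hk1, hkR⟩, hall⟩
    · right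
      push Not at hall
      obtain ⟨q, hq, hd, hlq⟩ := hall
      have hq0 : (0 : ℝ) < q := by exact_mod_cast hq.pos
      have hqw : ¬ (q : ℝ) ≤ w0 y := by
        rw [hw0, ← Real.log_le_iff_le_exp hq0]; exact not_le.2 hlq
      have hqy : y < q := by
        by_contra hcon
        push Not at hcon
        have := hk2 q hq hcon
        rw [hcll q hqw] at this
        apply this
        have h7 : (q : ℤ) ∣ (k : ℤ) := by exact_mod_cast hd
        simpa using h7.mul_left s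
      obtain ⟨m, rfl⟩ := hd
      have hm1 : 1 ≤ m := by
        rcases Nat.eq_zero_or_pos m with rfl | h
        · simp at hk1
        · exact h
      have hm0 : (0 : ℝ) < m := by exact_mod_cast hm1
      have hmM : m ≤ M := by
        rw [hM, Nat.le_floor_iff (by positivity)]
        have h7 : (q : ℝ) * m ≤ R := by exact_mod_cast hkR
        have h8 : y * m ≤ y * (Real.log y) ^ 2 := by
          calc y * m ≤ q * m := by gcongr
            _ ≤ R := h7
            _ ≤ _ := hRy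
        exact le_of_mul_le_mul_left h8 hy0
      rw [mem_biUnion]
      refine ⟨m, mem_Icc.2 ⟨hm1, hmM⟩, ?_⟩
      rw [mem_image]
      refine ⟨q, ?_, mul_comm _ _⟩
      rw [hT]
      simp only
      rw [mem_filter, mem_Icc]
      refine ⟨⟨hq.pos, ?_⟩, ⟨hq, fun p hp hpw hdvd => ?_⟩, hqy⟩
      · rw [Nat.le_div_iff_mul_le hm1]; exact hkR
      · have hpw0 : (p : ℝ) ≤ w0 y := by
          have : (p : ℝ) ≤ w := by exact_mod_cast hpw
          rw [hw0]; exact this.trans hwle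
        have := hk2 p hp (hpw0.trans hw0y)
        rw [hcls p hpw0] at this
        apply this
        rcases hs with rfl | rfl
        · have e : ((1 : ℕ) : ℤ) ^ 2 + 1 * ((q * m : ℕ) : ℤ) = (m : ℤ) * q + 1 := by
            push_cast; ring
          rw [e]; exact hdvd
        · have e : ((1 : ℕ) : ℤ) ^ 2 + -1 * ((q * m : ℕ) : ℤ) = -((m : ℤ) * q + -1) := by
            push_cast; ring
          rw [e]; exact (dvd_neg).2 hdvd
  -- the count for one cofactor
  have hTm : ∀ m ∈ Finset.Icc 1 M, ((T m).card : ℝ) ≤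
      C₁ * R / (Real.log y * (V0 / 2)) * (((m : ℝ) / (Nat.totient m : ℝ)) ^ 2 / m) := by
    intro m hm
    rw [mem_Icc] at hm
    have hm0 : (0 : ℝ) < m := by exact_mod_cast hm.1
    have hrhs0 : 0 ≤ C₁ * R / (Real.log y * (V0 / 2)) * (((m : ℝ) / (Nat.totient m : ℝ)) ^ 2 / m) := by
      positivity
    rcases (T m).eq_empty_or_nonempty with he | ⟨q, hq⟩
    · rw [he]; simpa using hrhs0
    · have hNy : y < ((R / m : ℕ) : ℝ) := by
        rw [hT] at hq
        simp only at hq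
        rw [mem_filter, mem_Icc] at hq
        have h7 : (q : ℝ) ≤ ((R / m : ℕ) : ℝ) := by exact_mod_cast hq.1.2
        linarith [hq.2.2]
      have hN0 : (0 : ℝ) < ((R / m : ℕ) : ℝ) := hy0.trans hNy
      have hlN : Real.log y ≤ Real.log ((R / m : ℕ) : ℝ) := Real.log_le_log hy0 hNy.le
      have hwN : (w : ℝ) ≤ ((R / m : ℕ) : ℝ) ^ (1 / 16 : ℝ) := by
        refine hwle.trans ?_
        rw [Real.rpow_def_of_pos hN0]
        apply Real.exp_le_exp.2
        linarith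
      have h8 := hSM m (R / m) w s hs hm.1 hw2 hwN
      have h9 : ((T m).card : ℝ) ≤ (((Finset.Icc 1 (R / m)).filter (fun q : ℕ => q.Prime ∧
      ∀ p : ℕ, p.Prime → p ≤ w → ¬ ((p : ℤ) ∣ (m : ℤ) * (q : ℤ) + s))).card : ℝ) := by
        apply Nat.cast_le.2
        apply card_le_card
        intro q hq
        rw [hT] at hq
        simp only at hq
        rw [mem_filter] at hq ⊢
        exact ⟨hq.1, hq.2.1⟩
      refine h9.trans (h8.trans ?_)
      have h10 : ((R / m : ℕ) : ℝ) ≤ R / m := Nat.cast_div_le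
      calc C₁ * ((m : ℝ) / (Nat.totient m : ℝ)) ^ 2 * ((R / m : ℕ) : ℝ) /
            (Real.log ((R / m : ℕ) : ℝ) * Real.log w)
          ≤ C₁ * ((m : ℝ) / (Nat.totient m : ℝ)) ^ 2 * (R / m) / (Real.log y * (V0 / 2)) := by
            gcongr
        _ = _ := by field_simp
  have hcard : (((Finset.Icc 1 R).filter (fun k : ℕ => ∀ p : ℕ, p.Prime → (p : ℝ) ≤ y →
        ¬ ((p : ℤ) ∣ (cl y p : ℤ) ^ 2 + s * k))).card : ℝ) ≤
      R / (Real.log y) ^ 3 + C₁ * R / (Real.log y * (V0 / 2)) * (C₂ * (2 * t)) := by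
    calc (((Finset.Icc 1 R).filter (fun k : ℕ => ∀ p : ℕ, p.Prime → (p : ℝ) ≤ y →
        ¬ ((p : ℤ) ∣ (cl y p : ℤ) ^ 2 + s * k))).card : ℝ)
        ≤ (((Finset.Icc 1 R).filter (fun m => ∀ p : ℕ, p.Prime → p ∣ m → Real.log p ≤ V0)).card : ℝ)
          + ((∑ m ∈ Finset.Icc 1 M, (T m).card : ℕ) : ℝ) := by
          rw [← Nat.cast_add]
          apply Nat.cast_le.2
          refine (card_le_card hsub).trans ((card_union_le _ _).trans ?_)
          gcongr
          exact card_biUnion_le.trans (sum_le_sum fun m _ => card_image_le)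
      _ ≤ R / (Real.log y) ^ 3 + ∑ m ∈ Finset.Icc 1 M, C₁ * R / (Real.log y * (V0 / 2)) *
            (((m : ℝ) / (Nat.totient m : ℝ)) ^ 2 / m) := by
          push_cast
          gcongr with m hm
          exact hTm m hm
      _ = R / (Real.log y) ^ 3 + C₁ * R / (Real.log y * (V0 / 2)) *
            ∑ m ∈ Finset.Icc 1 M, (((m : ℝ) / (Nat.totient m : ℝ)) ^ 2 / m) := by rw [mul_sum]
      _ ≤ R / (Real.log y) ^ 3 + C₁ * R / (Real.log y * (V0 / 2)) * (C₂ * (2 * t)) := by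
          gcongr
          exact (hSR M hM2).trans (by gcongr)
  refine hcard.trans ?_
  have e1 : C₁ * R / (Real.log y * (V0 / 2)) * (C₂ * (2 * t)) =
      40 * C₁ * C₂ * R * t ^ 2 / ((Real.log y) ^ 2 * Real.log t) := by
    rw [hV0]; field_simp; ring
  have e2 : (R : ℝ) / (Real.log y) ^ 3 ≤ R * t ^ 2 / ((Real.log y) ^ 2 * Real.log t) := by
    rw [div_le_div_iff₀ (by positivity) (by positivity)]
    have h7 : Real.log t ≤ Real.log y * t ^ 2 := by
      rw [hLe]; nlinarith [sq_nonneg t]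
    calc (R : ℝ) * ((Real.log y) ^ 2 * Real.log t) ≤ R * ((Real.log y) ^ 2 * (Real.log y * t ^ 2)) := by gcongr
      _ = R * t ^ 2 * (Real.log y) ^ 3 := by ring
  rw [e1]
  calc (R : ℝ) / (Real.log y) ^ 3 + 40 * C₁ * C₂ * R * t ^ 2 / ((Real.log y) ^ 2 * Real.log t)
      ≤ R * t ^ 2 / ((Real.log y) ^ 2 * Real.log t) +
        40 * C₁ * C₂ * R * t ^ 2 / ((Real.log y) ^ 2 * Real.log t) := by gcongr
    _ = _ := by ring

open Classical in
/-- QR with the two inputs as hypotheses -/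
theorem survivors_of (hSM : SieveMixed) (hSR : SumRatio) :
    ∃ C : ℝ, 0 < C ∧ ∃ y₀ : ℝ, ∀ y : ℝ, y₀ ≤ y → ∀ R : ℕ, y ≤ R →
    (R : ℝ) ≤ y * (Real.log y) ^ 2 →
    (((Finset.Icc (-(R : ℤ)) R).filter (fun h => h ≠ 0 ∧ ∀ p : ℕ, p.Prime → (p : ℝ) ≤ y →
        ¬ ((p : ℤ) ∣ (cl y p : ℤ) ^ 2 + h))).card : ℝ) ≤
      C * R * (Real.log (Real.log y)) ^ 2 /
        ((Real.log y) ^ 2 * Real.log (Real.log (Real.log y))) := by
  obtain ⟨Ca, hCa, ya, ha⟩ := one_sign hSM hSR 1 (Or.inl rfl)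
  obtain ⟨Cb, hCb, yb, hb⟩ := one_sign hSM hSR (-1) (Or.inr rfl)
  refine ⟨Ca + Cb, by positivity, max ya yb, fun y hy R hyR hRy => ?_⟩
  have h1 := ha y ((le_max_left _ _).trans hy) R hyR hRy
  have h2 := hb y ((le_max_right _ _).trans hy) R hyR hRy
  have hsub : (Finset.Icc (-(R : ℤ)) R).filter (fun h => h ≠ 0 ∧ ∀ p : ℕ, p.Prime → (p : ℝ) ≤ y →
        ¬ ((p : ℤ) ∣ (cl y p : ℤ) ^ 2 + h)) ⊆
      ((Finset.Icc 1 R).filter (fun k : ℕ => ∀ p : ℕ, p.Prime → (p : ℝ) ≤ y →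
        ¬ ((p : ℤ) ∣ (cl y p : ℤ) ^ 2 + 1 * k))).image (fun k : ℕ => (k : ℤ)) ∪
      ((Finset.Icc 1 R).filter (fun k : ℕ => ∀ p : ℕ, p.Prime → (p : ℝ) ≤ y →
        ¬ ((p : ℤ) ∣ (cl y p : ℤ) ^ 2 + (-1) * k))).image (fun k : ℕ => -(k : ℤ)) := by
    intro h hh
    rw [mem_filter, mem_Icc] at hh
    obtain ⟨⟨hl, hr⟩, hne, hp⟩ := hh
    rw [mem_union, mem_image, mem_image]
    rcases lt_or_gt_of_ne hne with hneg | hpos
    · right
      refine ⟨h.natAbs, ?_, by omega⟩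
      rw [mem_filter, mem_Icc]
      refine ⟨⟨by omega, by omega⟩, fun p hpp hpy => ?_⟩
      have e : (-1 : ℤ) * ((h.natAbs : ℕ) : ℤ) = h := by omega
      rw [e]; exact hp p hpp hpy
    · left
      refine ⟨h.natAbs, ?_, by omega⟩
      rw [mem_filter, mem_Icc]
      refine ⟨⟨by omega, by omega⟩, fun p hpp hpy => ?_⟩
      have e : (1 : ℤ) * ((h.natAbs : ℕ) : ℤ) = h := by omega
      rw [e]; exact hp p hpp hpy
  have h3 : (((Finset.Icc (-(R : ℤ)) R).filter (fun h => h ≠ 0 ∧ ∀ p : ℕ, p.Prime → (p : ℝ) ≤ y →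
        ¬ ((p : ℤ) ∣ (cl y p : ℤ) ^ 2 + h))).card : ℝ) ≤
      (((Finset.Icc 1 R).filter (fun k : ℕ => ∀ p : ℕ, p.Prime → (p : ℝ) ≤ y →
        ¬ ((p : ℤ) ∣ (cl y p : ℤ) ^ 2 + 1 * k))).card : ℝ) +
      (((Finset.Icc 1 R).filter (fun k : ℕ => ∀ p : ℕ, p.Prime → (p : ℝ) ≤ y →
        ¬ ((p : ℤ) ∣ (cl y p : ℤ) ^ 2 + (-1) * k))).card : ℝ) := by
    rw [← Nat.cast_add]
    apply Nat.cast_le.2
    exact (card_le_card hsub).trans ((card_union_le _ _).trans
      (add_le_add card_image_le card_image_le))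
  refine h3.trans ((add_le_add h1 h2).trans (le_of_eq ?_))
  ring

end Pool.Agent.H378R2.QG.QRaux
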