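import Mathlib
import Pool.Agent.H74R2.QG.QRaux
import Pool.Agent.H144R2.QG.QP
import Pool.Agent.H944R2.QG.QR1

set_option autoImplicit false

/-! # QG, task QR (helper74): survivors -/

namespace Pool.Agent.H378R2.QG

open Classical in
/-- QR: survivors `h`, `|h| ≤ R`: no prime `p ≤ y` divides `cl(p)² + h` -/
theorem survivors : ∃ C : ℝ, 0 < C ∧ ∃ y₀ : ℝ, ∀ y : ℝ, y₀ ≤ y → ∀ R : ℕ, y ≤ R →
    (R : ℝ) ≤ y * (Real.log y) ^ 2 →
    (((Finset.Icc (-(R : ℤ)) R).filter (fun h => h ≠ 0 ∧ ∀ p : ℕ, p.Prime → (p : ℝ) ≤ y →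
        ¬ ((p : ℤ) ∣ (cl y p : ℤ) ^ 2 + h))).card : ℝ) ≤
      C * R * (Real.log (Real.log y)) ^ 2 /
        ((Real.log y) ^ 2 * Real.log (Real.log (Real.log y))) :=
  QRaux.survivors_of sieve_mixed sum_ratio

end Pool.Agent.H378R2.QG
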